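import Pool.Graph.R_seed8.R290.WaveFT

/-!
# The set `Ω_q` for an even dilation factor `q`, and the periodisation lemma

`x = (q+1)/(q³-1)`, `y = (q²+1)/(q³-1)`, `s = 1/(q-1)` and
`Ω_q = [x,y) ∪ [s,s+1) ∪ [s+q, x+1+q) ∪ [y+1+q², s+1+q²)`.
-/

set_option autoImplicit false

namespace KS60.WQ

open MeasureTheory Complex Set
open scoped ENNReal InnerProductSpace Interval
open Pool.Agent.R290.WaveFT

/-- an even number `q = 2 r ≥ 2` and a real number `b` with `b (q - 1) ∈ ℤ + 1/2` -/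
structure Par where
  r : ℕ
  hr : 1 ≤ r
  b : ℝ
  j : ℤ
  hb : b * (2 * (r : ℝ) - 1) = j + 1 / 2

variable (P : Par)

/-- the dilation factor -/
noncomputable def Par.q : ℝ := 2 * (P.r : ℝ)
noncomputable def Par.x : ℝ := (P.q + 1) / (P.q ^ 3 - 1)
noncomputable def Par.y : ℝ := (P.q ^ 2 + 1) / (P.q ^ 3 - 1)
noncomputable def Par.s : ℝ := 1 / (P.q - 1)

lemma q_ge : 2 ≤ P.q := by
  have : (1:ℝ) ≤ P.r := by exact_mod_cast P.hr
  unfold Par.q; linarith

lemma q_pos : 0 < P.q := by linarith [q_ge P]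

lemma q3_pos : 0 < P.q ^ 3 - 1 := by
  have h := q_ge P
  nlinarith [pow_pos (q_pos P) 2, pow_pos (q_pos P) 3, mul_self_nonneg (P.q - 2)]

lemma q1_pos : 0 < P.q - 1 := by linarith [q_ge P]

lemma qs : P.q * P.s = P.s + 1 := by
  unfold Par.s
  have := (q1_pos P).ne'
  field_simp
  ring

lemma qy : P.q * P.y = P.x + 1 := by
  unfold Par.y Par.x
  have := (q3_pos P).ne'
  field_simp
  ring

lemma qqx : P.q * (P.q * P.x) = P.y + 1 := by
  unfold Par.y Par.x
  have := (q3_pos P).ne'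
  field_simp
  ring

/-- `s (q³ - 1) = q² + q + 1` -/
lemma s_eq : P.s = (P.q ^ 2 + P.q + 1) / (P.q ^ 3 - 1) := by
  unfold Par.s
  have h1 := (q3_pos P).ne'
  have h2 := (q1_pos P).ne'
  field_simp
  ring

lemma x_pos : 0 < P.x := by
  unfold Par.x
  have := q_pos P
  have := q3_pos P
  positivity

lemma x_lt_y : P.x < P.y := by
  unfold Par.x Par.y
  rw [div_lt_div_iff_of_pos_right (q3_pos P)]
  nlinarith [q_ge P]

lemma y_lt_qx : P.y < P.q * P.x := by
  unfold Par.x Par.y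
  rw [mul_div_assoc', div_lt_div_iff_of_pos_right (q3_pos P)]
  nlinarith [q_ge P]

lemma qx_lt_s : P.q * P.x < P.s := by
  rw [s_eq]
  unfold Par.x
  rw [mul_div_assoc', div_lt_div_iff_of_pos_right (q3_pos P)]
  nlinarith [q_ge P]

lemma s_le : P.s ≤ 1 := by
  unfold Par.s
  rw [div_le_one (q1_pos P)]
  linarith [q_ge P]

lemma s_lt_q1x : P.s < P.q * P.x + P.x := by
  rw [s_eq]
  unfold Par.x
  rw [mul_div_assoc', ← add_div, div_lt_div_iff_of_pos_right (q3_pos P)]
  nlinarith [q_ge P]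

lemma q2_ge : 2 * P.q ≤ P.q ^ 2 := by nlinarith [q_ge P]

lemma q3_ge : 2 * P.q ^ 2 ≤ P.q ^ 3 := by
  have h := q_ge P
  have h2 : 0 ≤ P.q ^ 2 := by positivity
  nlinarith

/-- the set -/
def Om : Set ℝ := Ico P.x P.y ∪ Ico P.s (P.s + 1) ∪ Ico (P.s + P.q) (P.x + 1 + P.q) ∪
  Ico (P.y + 1 + P.q ^ 2) (P.s + 1 + P.q ^ 2)

lemma Om_meas : MeasurableSet (Om P) := by unfold Om; measurability

lemma Om_pos {t : ℝ} (h : t ∈ Om P) : 0 < t := by
  have h1 := x_pos P
  have h2 := x_lt_y P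
  have h3 := y_lt_qx P
  have h4 := qx_lt_s P
  have h5 := q_pos P
  have h6 := q2_ge P
  rcases h with ((⟨h, _⟩ | ⟨h, _⟩) | ⟨h, _⟩) | ⟨h, _⟩ <;> linarith

lemma Om_ge {t : ℝ} (h : t ∈ Om P) : P.x ≤ t := by
  have h1 := x_pos P
  have h2 := x_lt_y P
  have h3 := y_lt_qx P
  have h4 := qx_lt_s P
  have h5 := q_pos P
  have h6 := q2_ge P
  rcases h with ((⟨h, _⟩ | ⟨h, _⟩) | ⟨h, _⟩) | ⟨h, _⟩ <;> linarith

lemma Om_lt {t : ℝ} (h : t ∈ Om P) : t < P.s + 1 + P.q ^ 2 := by
  have h1 := x_pos P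
  have h2 := x_lt_y P
  have h3 := y_lt_qx P
  have h4 := qx_lt_s P
  have h5 := q_pos P
  have h6 := q2_ge P
  have h7 := s_le P
  rcases h with ((⟨_, h⟩ | ⟨_, h⟩) | ⟨_, h⟩) | ⟨_, h⟩ <;> linarith

/-- the integral over the pieces -/
lemma int_Om (F : ℝ → ℂ) (hF : ∀ a b : ℝ, IntervalIntegrable F volume a b) :
    ∫ η in Om P, F η = (∫ η in P.x..P.y, F η) + (∫ η in P.s..(P.s + 1), F η) +
      (∫ η in (P.s + P.q)..(P.x + 1 + P.q), F η) +
      ∫ η in (P.y + 1 + P.q ^ 2)..(P.s + 1 + P.q ^ 2), F η := by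
  have k1 := x_pos P
  have k2 := x_lt_y P
  have k3 := y_lt_qx P
  have k4 := qx_lt_s P
  have k5 := q_ge P
  have k6 := q2_ge P
  have k7 := s_le P
  have hI : ∀ a b : ℝ, a ≤ b → IntegrableOn F (Ico a b) volume := by
    intro a b hab
    rw [integrableOn_Ico_iff_integrableOn_Ioo, ← integrableOn_Ioc_iff_integrableOn_Ioo]
    exact (intervalIntegrable_iff_integrableOn_Ioc_of_le hab).1 (hF a b)
  have hE : ∀ a b : ℝ, a ≤ b → ∫ η in Ico a b, F η = ∫ η in a..b, F η := by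
    intro a b hab
    rw [intervalIntegral.integral_of_le hab, integral_Ico_eq_integral_Ioo,
      integral_Ioc_eq_integral_Ioo]
  have d1 : Disjoint (Ico P.x P.y) (Ico P.s (P.s + 1)) := by
    rw [Set.disjoint_left]; rintro t ⟨_, h1⟩ ⟨h2, _⟩; linarith
  have d2 : Disjoint (Ico P.x P.y ∪ Ico P.s (P.s + 1)) (Ico (P.s + P.q) (P.x + 1 + P.q)) := by
    rw [Set.disjoint_left]; rintro t (⟨_, h1⟩ | ⟨_, h1⟩) ⟨h2, _⟩ <;> linarith
  have d3 : Disjoint (Ico P.x P.y ∪ Ico P.s (P.s + 1) ∪ Ico (P.s + P.q) (P.x + 1 + P.q))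
      (Ico (P.y + 1 + P.q ^ 2) (P.s + 1 + P.q ^ 2)) := by
    rw [Set.disjoint_left]; rintro t ((⟨_, h1⟩ | ⟨_, h1⟩) | ⟨_, h1⟩) ⟨h2, _⟩ <;> linarith
  have i1 := hI P.x P.y (by linarith)
  have i2 := hI P.s (P.s + 1) (by linarith)
  have i3 := hI (P.s + P.q) (P.x + 1 + P.q) (by linarith)
  have i4 := hI (P.y + 1 + P.q ^ 2) (P.s + 1 + P.q ^ 2) (by linarith)
  unfold Om
  rw [setIntegral_union d3 measurableSet_Ico ((i1.union i2).union i3) i4,
    setIntegral_union d2 measurableSet_Ico (i1.union i2) i3,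
    setIntegral_union d1 measurableSet_Ico i1 i2,
    hE _ _ (by linarith), hE _ _ (by linarith), hE _ _ (by linarith), hE _ _ (by linarith)]

lemma norm_cexp_I (x : ℝ) : ‖cexp ((x : ℂ) * I)‖ = 1 := Complex.norm_exp_ofReal_mul_I x

/-- uniqueness of Fourier coefficients on `(s,s+1]` -/
lemma fourier_unique (s : ℝ) (G : ℝ → ℂ) (hG : MemLp G 2 volume)
    (h : ∀ m : ℤ, ∫ θ in s..(s + 1), cexp (2 * Real.pi * m * θ * I) * G θ = 0) :
    ∀ᵐ θ : ℝ, θ ∈ Ioc s (s + 1) → G θ = 0 := by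
  have hG' : MemLp G 2 (volume.restrict (Ioc s (s + 1))) := hG.restrict _
  have hs : s < s + 1 := by linarith
  have h1 := hasSum_sq_fourierCoeffOn (a := s) (b := s + 1) (f := G) hs hG'
  have hone : s + 1 - s = 1 := by ring
  have h2 : ∀ n : ℤ, fourierCoeffOn hs G n = 0 := by
    intro n
    rw [fourierCoeffOn_eq_integral]
    have h3 : ∫ x in s..(s + 1), fourier (-n) (x : AddCircle (s + 1 - s)) • G x =
        ∫ θ in s..(s + 1), cexp (2 * Real.pi * ((-n : ℤ) : ℂ) * θ * I) * G θ := by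
      refine intervalIntegral.integral_congr fun x _ => ?_
      simp only [smul_eq_mul]
      congr 1
      rw [fourier_coe_apply]
      congr 1
      have : ((s + 1 - s : ℝ) : ℂ) = 1 := by rw [hone]; simp
      rw [this]
      push_cast
      ring
    rw [h3, h (-n), smul_zero]
  have h3 : ∫ x in s..(s + 1), ‖G x‖ ^ 2 = 0 := by
    have h4 : (fun i : ℤ => ‖fourierCoeffOn hs G i‖ ^ 2) = fun _ => 0 := by
      funext i
      rw [h2 i]
      simp
    rw [h4] at h1
    have h5 := h1.unique hasSum_zero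
    simpa using h5
  rw [intervalIntegral.integral_of_le hs.le] at h3
  have h4 : Integrable (fun x => ‖G x‖ ^ 2) (volume.restrict (Ioc s (s + 1))) := by
    have := hG'.integrable_norm_rpow (by norm_num) (by norm_num)
    simpa using this
  rw [integral_eq_zero_iff_of_nonneg (fun x => by positivity) h4] at h3
  rw [Filter.EventuallyEq, ae_restrict_iff' measurableSet_Ioc] at h3
  filter_upwards [h3] with x hx hx1
  have := hx hx1
  simpa using this

/-- the phase -/
noncomputable def w : ℂ := cexp (((2 * Real.pi * P.b : ℝ) : ℂ) * I)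

lemma w_ne : w P ≠ 0 := Complex.exp_ne_zero _

lemma phase_q : cexp (((2 * Real.pi * (P.b * P.q) : ℝ) : ℂ) * I) = - w P := by
  have h : P.b * P.q = P.b + (P.j + 1 / 2) := by
    have := P.hb
    unfold Par.q
    linarith
  rw [h]
  have : (((2 * Real.pi * (P.b + (P.j + 1 / 2)) : ℝ) : ℂ) * I) =
      ((2 * Real.pi * P.b : ℝ) : ℂ) * I + ((P.j : ℂ) * (2 * Real.pi * I) + Real.pi * I) := by
    push_cast; ring
  rw [this, Complex.exp_add, Complex.exp_add, Complex.exp_int_mul_two_pi_mul_I,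
    Complex.exp_pi_mul_I]
  unfold w
  ring

lemma phase_qq : cexp (((2 * Real.pi * (P.b * P.q ^ 2) : ℝ) : ℂ) * I) = - w P := by
  have h : P.b * P.q ^ 2 = P.b + (((2 * P.r + 1) * P.j + P.r : ℤ) + 1 / 2) := by
    have := P.hb
    have h2 : P.b * P.q ^ 2 = P.b + P.b * (2 * (P.r : ℝ) - 1) * (2 * (P.r : ℝ) + 1) := by
      unfold Par.q; ring
    rw [h2, this]
    push_cast
    ring
  rw [h]
  have : (((2 * Real.pi * (P.b + (((2 * P.r + 1) * P.j + P.r : ℤ) + 1 / 2)) : ℝ) : ℂ) * I) =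
      ((2 * Real.pi * P.b : ℝ) : ℂ) * I + ((((2 * P.r + 1) * P.j + P.r : ℤ) : ℂ) *
        (2 * Real.pi * I) + Real.pi * I) := by
    push_cast; ring
  rw [this, Complex.exp_add, Complex.exp_add, Complex.exp_int_mul_two_pi_mul_I,
    Complex.exp_pi_mul_I]
  unfold w
  ring

lemma q_cast : P.q = ((2 * P.r : ℕ) : ℝ) := by unfold Par.q; push_cast; ring
lemma qq_cast : P.q ^ 2 = (((2 * P.r) ^ 2 : ℕ) : ℝ) := by unfold Par.q; push_cast; ring

/-- periodisation -/
lemma period (g : ℝ → ℂ) (hg : MemLp g 2 volume)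
    (h : ∀ m : ℤ, ∫ η in Om P, cexp (2 * Real.pi * (m + P.b) * η * I) * g η = 0) :
    (∀ᵐ η : ℝ, η ∈ Ico P.x P.y → g η = - w P * g (η + 1)) ∧
    (∀ᵐ η : ℝ, η ∈ Ico P.s (P.x + 1) → g η = w P * g (η + P.q)) ∧
    (∀ᵐ η : ℝ, η ∈ Ico (P.y + 1) (P.s + 1) → g η = w P * g (η + P.q ^ 2)) := by
  have k1 := x_pos P
  have k2 := x_lt_y P
  have k3 := y_lt_qx P
  have k4 := qx_lt_s P
  have k5 := q_ge P
  have k6 := q2_ge P
  have k7 := s_le P
  set k : ℝ → ℂ := fun η => cexp (((2 * Real.pi * (P.b * η) : ℝ) : ℂ) * I) * g η with hk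
  have hkL : MemLp k 2 volume := by
    refine MemLp.of_le_mul hg (c := 1)
      ((Measurable.aestronglyMeasurable (by fun_prop)).mul hg.1) ?_
    filter_upwards with x
    rw [hk]
    simp only
    rw [norm_mul, norm_cexp_I]
  have hkj : ∀ j : ℝ, MemLp (fun θ => k (θ + j)) 2 volume := by
    intro j
    have := memLp_comp k hkL 1 j one_ne_zero
    simpa using this
  set A : ℝ → ℂ := fun θ => k (θ + ((0 : ℤ) : ℝ)) + k (θ + ((2 * P.r : ℕ) : ℤ)) with hA
  set B : ℝ → ℂ := fun θ => k (θ + ((0 : ℤ) : ℝ)) + k (θ + ((-1 : ℤ) : ℝ)) with hB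
  set C : ℝ → ℂ := fun θ => k (θ + ((0 : ℤ) : ℝ)) + k (θ + (((2 * P.r) ^ 2 : ℕ) : ℤ)) with hC
  have hAL : MemLp A 2 volume := (hkj _).add (hkj _)
  have hBL : MemLp B 2 volume := (hkj _).add (hkj _)
  have hCL : MemLp C 2 volume := (hkj _).add (hkj _)
  set G : ℝ → ℂ := fun θ => (Iio (P.x + 1)).indicator A θ +
    (Ico (P.x + 1) (P.y + 1)).indicator B θ + (Ici (P.y + 1)).indicator C θ with hG
  have hGL : MemLp G 2 volume :=
    ((hAL.indicator measurableSet_Iio).add (hBL.indicator measurableSet_Ico)).add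
      (hCL.indicator measurableSet_Ici)
  have hGA : ∀ θ : ℝ, θ < P.x + 1 → G θ = A θ := by
    intro θ hθ
    have h1 : θ ∈ Iio (P.x + 1) := hθ
    have h2 : θ ∉ Ico (P.x + 1) (P.y + 1) := fun h => absurd h.1 (not_le.2 hθ)
    have h3 : θ ∉ Ici (P.y + 1) := fun h => absurd (mem_Ici.1 h) (by linarith)
    simp only [hG, indicator_of_mem h1, indicator_of_notMem h2, indicator_of_notMem h3, add_zero]
  have hGB : ∀ θ : ℝ, P.x + 1 ≤ θ → θ < P.y + 1 → G θ = B θ := by
    intro θ hθ hθ'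
    have h1 : θ ∉ Iio (P.x + 1) := fun h => absurd (mem_Iio.1 h) (by linarith)
    have h2 : θ ∈ Ico (P.x + 1) (P.y + 1) := ⟨hθ, hθ'⟩
    have h3 : θ ∉ Ici (P.y + 1) := fun h => absurd (mem_Ici.1 h) (by linarith)
    simp only [hG, indicator_of_notMem h1, indicator_of_mem h2, indicator_of_notMem h3, add_zero,
      zero_add]
  have hGC : ∀ θ : ℝ, P.y + 1 ≤ θ → G θ = C θ := by
    intro θ hθ
    have h1 : θ ∉ Iio (P.x + 1) := fun h => absurd (mem_Iio.1 h) (by linarith)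
    have h2 : θ ∉ Ico (P.x + 1) (P.y + 1) := fun h => absurd h.2 (by linarith)
    have h3 : θ ∈ Ici (P.y + 1) := hθ
    simp only [hG, indicator_of_notMem h1, indicator_of_notMem h2, indicator_of_mem h3, zero_add]
  have hint : ∀ (f : ℝ → ℂ), MemLp f 2 volume → ∀ (m : ℤ) (a b : ℝ),
      IntervalIntegrable (fun θ => cexp (2 * Real.pi * m * θ * I) * f θ) volume a b := by
    intro f hf m a b
    have h1 : IntervalIntegrable f volume a b := by
      rw [intervalIntegrable_iff]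
      have : IsFiniteMeasure (volume.restrict (Ι a b)) := ⟨by
        rw [Measure.restrict_apply_univ, uIoc]
        exact measure_Ioc_lt_top⟩
      exact (hf.restrict _).integrable (by norm_num)
    exact h1.continuousOn_mul (by fun_prop)
  have hper : ∀ (m : ℤ) (j : ℤ) (x : ℝ), cexp (2 * Real.pi * m * ((x + j : ℝ) : ℂ) * I) =
      cexp (2 * Real.pi * m * x * I) := by
    intro m j x
    have : (2 * Real.pi * m * ((x + j : ℝ) : ℂ) * I) =
        2 * Real.pi * m * x * I + ((m * j : ℤ) : ℂ) * (2 * Real.pi * I) := by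
      push_cast; ring
    rw [this, Complex.exp_add, Complex.exp_int_mul_two_pi_mul_I, mul_one]
  have hcoef : ∀ m : ℤ, ∫ θ in P.s..(P.s + 1), cexp (2 * Real.pi * m * θ * I) * G θ = 0 := by
    intro m
    set K : ℝ → ℂ := fun θ => cexp (2 * Real.pi * m * θ * I) * k θ with hK
    have hKi : ∀ a b : ℝ, IntervalIntegrable K volume a b := hint k hkL m
    have hshift : ∀ (j : ℤ) (a b : ℝ), ∫ θ in a..b, cexp (2 * Real.pi * m * θ * I) * k (θ + j) =
        ∫ θ in (a + j)..(b + j), K θ := by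
      intro j a b
      rw [← intervalIntegral.integral_comp_add_right]
      refine intervalIntegral.integral_congr fun x _ => ?_
      simp only [hK]
      rw [hper m j x]
    have hKOm : ∫ η in Om P, K η = 0 := by
      rw [← h m]
      refine setIntegral_congr_fun (Om_meas P) fun x _ => ?_
      simp only [hK, hk]
      rw [← mul_assoc, ← Complex.exp_add]
      congr 2
      push_cast
      ring
    have hne : ∀ u : ℝ, ∀ᵐ x : ℝ, x ≠ u := by
      intro u
      simp [ae_iff, measure_singleton]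
    have piece : ∀ (j : ℤ) (a b : ℝ), a ≤ b →
        (∀ θ : ℝ, a < θ → θ < b → G θ = k (θ + ((0 : ℤ) : ℝ)) + k (θ + j)) →
        ∫ θ in a..b, cexp (2 * Real.pi * m * θ * I) * G θ =
          (∫ θ in a..b, K θ) + ∫ θ in (a + j)..(b + j), K θ := by
      intro j a b hab hGab
      have : ∫ θ in a..b, cexp (2 * Real.pi * m * θ * I) * G θ =
          ∫ θ in a..b, (cexp (2 * Real.pi * m * θ * I) * k (θ + ((0 : ℤ) : ℝ)) +
            cexp (2 * Real.pi * m * θ * I) * k (θ + j)) := by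
        refine intervalIntegral.integral_congr_ae ?_
        filter_upwards [hne b] with x hx hx2
        rw [uIoc_of_le hab] at hx2
        rw [hGab x hx2.1 (lt_of_le_of_ne hx2.2 hx)]
        ring
      rw [this, intervalIntegral.integral_add, hshift, hshift]
      · simp only [Int.cast_zero, add_zero]
      · exact hint _ (hkj _) m a b
      · exact hint _ (hkj _) m a b
    have e1 := piece ((2 * P.r : ℕ) : ℤ) P.s (P.x + 1) (by linarith)
      (fun θ _ h2 => by rw [hGA θ h2])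
    have e2 := piece (-1) (P.x + 1) (P.y + 1) (by linarith)
      (fun θ h1 h2 => by rw [hGB θ h1.le h2])
    have e3 := piece (((2 * P.r) ^ 2 : ℕ) : ℤ) (P.y + 1) (P.s + 1) (by linarith)
      (fun θ h1 _ => by rw [hGC θ h1.le])
    have c1 : (((2 * P.r : ℕ) : ℤ) : ℝ) = P.q := by rw [q_cast]; simp
    have c2 : ((((2 * P.r) ^ 2 : ℕ) : ℤ) : ℝ) = P.q ^ 2 := by rw [qq_cast]; simp
    have c3 : (P.x + 1) + ((-1 : ℤ) : ℝ) = P.x := by push_cast; ring
    have c4 : (P.y + 1) + ((-1 : ℤ) : ℝ) = P.y := by push_cast; ring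
    rw [c1] at e1
    rw [c2] at e3
    rw [c3, c4] at e2
    have hGi := hint G hGL m
    rw [← intervalIntegral.integral_add_adjacent_intervals (hGi P.s (P.x + 1))
        (hGi (P.x + 1) (P.s + 1)),
      ← intervalIntegral.integral_add_adjacent_intervals (hGi (P.x + 1) (P.y + 1))
        (hGi (P.y + 1) (P.s + 1)),
      e1, e2, e3]
    rw [int_Om P K hKi, ← intervalIntegral.integral_add_adjacent_intervals (hKi P.s (P.x + 1))
      (hKi (P.x + 1) (P.s + 1)), ← intervalIntegral.integral_add_adjacent_intervals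
      (hKi (P.x + 1) (P.y + 1)) (hKi (P.y + 1) (P.s + 1))] at hKOm
    rw [← hKOm]
    ring
  have hzero := fourier_unique P.s G hGL hcoef
  have hexp : ∀ (j : ℝ) (θ : ℝ), cexp (((2 * Real.pi * (P.b * (θ + j)) : ℝ) : ℂ) * I) =
      cexp (((2 * Real.pi * (P.b * θ) : ℝ) : ℂ) * I) *
        cexp (((2 * Real.pi * (P.b * j) : ℝ) : ℂ) * I) := by
    intro j θ
    rw [← Complex.exp_add]
    congr 1
    push_cast
    ring
  have c1 : (((2 * P.r : ℕ) : ℤ) : ℝ) = P.q := by rw [q_cast]; simp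
  have c2 : ((((2 * P.r) ^ 2 : ℕ) : ℤ) : ℝ) = P.q ^ 2 := by rw [qq_cast]; simp
  have hne : ∀ u : ℝ, ∀ᵐ x : ℝ, x ≠ u := by
    intro u
    simp [ae_iff, measure_singleton]
  refine ⟨?_, ?_, ?_⟩
  · have h1 : ∀ᵐ η : ℝ, η + 1 ∈ Ioc P.s (P.s + 1) → G (η + 1) = 0 := by
      have := (quasi 1 1 one_ne_zero).ae hzero
      filter_upwards [this] with η h2
      have h3 : 1 * η + 1 = η + 1 := by ring
      rw [h3] at h2
      exact h2
    filter_upwards [h1] with η h1 h2
    have h3 := h1 ⟨by linarith [h2.1], by linarith [h2.2]⟩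
    rw [hGB (η + 1) (by linarith [h2.1]) (by linarith [h2.2])] at h3
    have e1 : η + 1 + ((0 : ℤ) : ℝ) = η + 1 := by push_cast; ring
    have e2 : η + 1 + ((-1 : ℤ) : ℝ) = η := by push_cast; ring
    simp only [hB, hk, e1, e2] at h3
    rw [hexp 1 η, mul_one] at h3
    have h4 : cexp (((2 * Real.pi * (P.b * η) : ℝ) : ℂ) * I) * (w P * g (η + 1) + g η) = 0 := by
      rw [← h3]; unfold w; ring
    rcases mul_eq_zero.1 h4 with h5 | h5
    · exact absurd h5 (Complex.exp_ne_zero _)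
    · linear_combination h5
  · filter_upwards [hzero, hne P.s] with η h2 h0 h3
    have h4 := h2 ⟨lt_of_le_of_ne h3.1 (Ne.symm h0), by linarith [h3.2]⟩
    rw [hGA η h3.2] at h4
    have e1 : η + ((0 : ℤ) : ℝ) = η := by push_cast; ring
    simp only [hA, hk, e1, c1] at h4
    rw [hexp P.q η, phase_q] at h4
    have h5 : cexp (((2 * Real.pi * (P.b * η) : ℝ) : ℂ) * I) * (g η - w P * g (η + P.q)) = 0 := by
      rw [← h4]; ring
    rcases mul_eq_zero.1 h5 with h6 | h6
    · exact absurd h6 (Complex.exp_ne_zero _)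
    · linear_combination h6
  · filter_upwards [hzero] with η h2 h3
    have h4 := h2 ⟨by linarith [h3.1], by linarith [h3.2]⟩
    rw [hGC η h3.1] at h4
    have e1 : η + ((0 : ℤ) : ℝ) = η := by push_cast; ring
    simp only [hC, hk, e1, c2] at h4
    rw [hexp (P.q ^ 2) η, phase_qq] at h4
    have h5 : cexp (((2 * Real.pi * (P.b * η) : ℝ) : ℂ) * I) *
        (g η - w P * g (η + P.q ^ 2)) = 0 := by
      rw [← h4]; ring
    rcases mul_eq_zero.1 h5 with h6 | h6
    · exact absurd h6 (Complex.exp_ne_zero _)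
    · linear_combination h6

end KS60.WQ
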