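import Pool.Agent.KS6_60.WQ.Main
import Pool.Graph.R_seed8.R290.WaveFinal

/-!
# `Ω_q` is a wavelet set; it tiles multiplicatively by no set of automorphisms
-/

set_option autoImplicit false

namespace KS60.WQ

open MeasureTheory Complex Set FourierTransform
open scoped ENNReal InnerProductSpace
open Pool.Agent.R290.WaveFT
open Pool.Agent.R290.WaveFinal (mulE mulE_apply auto_apply auto_ne auto_ext auto_image auto_vol
  auto_mod V_congr)

variable (P : Par)

lemma e1_aux (c : ℝ) (hc : 0 < c) (i : Idx) :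
    (𝓕 (U ((mulE (dil P c i) (dil_ne P c hc i)) 1) (fr P i)
        (auto_ne _) (𝓕⁻ (ind P) : L2)) : L2) = v P c hc i := by
  rw [fourier_U, fourier_fourierInv_eq]
  unfold v
  exact V_congr _ _ (by rw [mulE_apply, mul_one]) _

/-- The family of all `√Δ(a) ψ(a x - λ)` -/
lemma wavelet (c : ℝ) (hc : 0 < c) (B : Set (ℝ × (ℝ ≃ₜ+ ℝ)))
    (hB : B = range fun i : Idx => (fr P i, mulE (dil P c i) (dil_ne P c hc i))) :
    B.Countable ∧ ∃ ψ : L2, (𝓕 ψ : L2) =ᵐ[volume] (Om P).indicator (fun _ => (1:ℂ)) ∧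
      ∃ Φ : ℝ × (ℝ ≃ₜ+ ℝ) → L2,
        (∀ p ∈ B, Φ p =ᵐ[volume] fun x =>
          ((√(volume (p.2 '' Icc 0 1)).toReal : ℝ) : ℂ) * ψ (p.2 x - p.1)) ∧
        (∀ p ∈ B, ∀ q ∈ B, p ≠ q → ⟪Φ p, Φ q⟫_ℂ = 0) ∧ (∀ p ∈ B, Φ p ≠ 0) ∧
        (Submodule.span ℂ (Φ '' B)).topologicalClosure = ⊤ := by
  refine ⟨?_, (𝓕⁻ (ind P) : L2), ?_, fun p => U (p.2 1) p.1 (auto_ne p.2) (𝓕⁻ (ind P) : L2),
    ?_, ?_, ?_, ?_⟩
  · rw [hB]; exact countable_range _
  · rw [fourier_fourierInv_eq]
    exact ind_coe P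
  · intro p _
    refine (U_coe _ _ _ _).trans ?_
    filter_upwards with x
    rw [auto_mod, auto_apply p.2 x]
  · intro p hp q hq hpq
    rw [hB] at hp hq
    obtain ⟨i, rfl⟩ := hp
    obtain ⟨j, rfl⟩ := hq
    have hij : i ≠ j := by
      rintro rfl
      exact hpq rfl
    have e1 := fun i => e1_aux P c hc i
    rw [← Lp.inner_fourier_eq]
    simp only
    rw [e1, e1]
    exact orth P c hc i j hij
  · intro p hp h0
    rw [hB] at hp
    obtain ⟨i, rfl⟩ := hp
    have e1 := fun i => e1_aux P c hc i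
    simp only at h0
    have h1 := e1 i
    rw [h0] at h1
    have h2 : v P c hc i = 0 := by
      rw [← h1]
      apply norm_eq_zero.1
      rw [Lp.norm_fourier_eq, norm_zero]
    have h3 := v_coe P c hc i
    rw [h2] at h3
    have h4 : ∀ᵐ ξ : ℝ, ξ / dil P c i ∉ Om P := by
      filter_upwards [h3, Lp.coeFn_zero ℂ 2 (volume : Measure ℝ)] with ξ h5 h6 h7
      rw [h5, indicator_of_mem h7] at h6
      simp only [Pi.zero_apply, mul_one, mul_eq_zero] at h6
      rcases h6 with h6 | h6
      · have h8 : (√|dil P c i|⁻¹ : ℝ) ≠ 0 := by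
          apply (Real.sqrt_pos.2 _).ne'
          exact inv_pos.2 (abs_pos.2 (dil_ne P c hc i))
        exact h8 (by exact_mod_cast h6)
      · exact Complex.exp_ne_zero _ h6
    have h5 := (quasi (dil P c i) 0 (dil_ne P c hc i)).ae h4
    have h6 : volume (Om P) = 0 := by
      have : ∀ᵐ η : ℝ, η ∉ Om P := by
        filter_upwards [h5] with η h7
        rwa [add_zero, mul_div_cancel_left₀ _ (dil_ne P c hc i)] at h7
      rw [ae_iff] at this
      simpa using this
    exact (Om_vol_pos P).ne' h6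
  · rw [Submodule.topologicalClosure_eq_top_iff, Submodule.eq_bot_iff]
    intro f hf
    have e1 := fun i => e1_aux P c hc i
    have h1 : ∀ i, ⟪v P c hc i, (𝓕 f : L2)⟫_ℂ = 0 := by
      intro i
      rw [← e1 i, Lp.inner_fourier_eq]
      have hm : (fr P i, mulE (dil P c i) (dil_ne P c hc i)) ∈ B := by
        rw [hB]
        exact mem_range_self i
      have h9 := mem_image_of_mem
          (fun p : ℝ × (ℝ ≃ₜ+ ℝ) => U (p.2 1) p.1 (auto_ne p.2) (𝓕⁻ (ind P) : L2)) hm
      have h10 := Submodule.inner_right_of_mem_orthogonal (Submodule.subset_span h9) hf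
      exact h10
    have h2 := total P c hc (𝓕 f : L2) h1
    apply norm_eq_zero.1
    rw [← Lp.norm_fourier_eq, h2, norm_zero]

lemma sub_A : Ioo P.x P.y ⊆ Om P := fun _ hx => Or.inl (Or.inl (Or.inl ⟨hx.1.le, hx.2⟩))
lemma sub_B : Ioo P.s (P.s + 1) ⊆ Om P := fun _ hx => Or.inl (Or.inl (Or.inr ⟨hx.1.le, hx.2⟩))
lemma sub_C : Ioo (P.s + P.q) (P.x + 1 + P.q) ⊆ Om P := fun _ hx =>
  Or.inl (Or.inr ⟨hx.1.le, hx.2⟩)

lemma ov (α β : ℝ ≃ₜ+ ℝ) (hα : 0 < α 1) (hβ : 0 < β 1) {p q r s : ℝ} (h1 : Ioo p q ⊆ Om P)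
    (h2 : Ioo r s ⊆ Om P) (hpq : p < q) (hrs : r < s) (h3 : α 1 * p < β 1 * s)
    (h4 : β 1 * r < α 1 * q) : 0 < volume (α '' Om P ∩ β '' Om P) := by
  have h5 : Ioo (max (α 1 * p) (β 1 * r)) (min (α 1 * q) (β 1 * s)) ⊆
      α '' Om P ∩ β '' Om P := by
    rintro x ⟨h6, h7⟩
    rw [max_lt_iff] at h6
    rw [lt_min_iff] at h7
    constructor
    · rw [auto_image]
      apply h1
      change (α 1)⁻¹ * x ∈ Ioo p q
      rw [← div_eq_inv_mul]
      exact ⟨by rw [lt_div_iff₀ hα]; linarith [h6.1], by rw [div_lt_iff₀ hα]; linarith [h7.1]⟩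
    · rw [auto_image]
      apply h2
      change (β 1)⁻¹ * x ∈ Ioo r s
      rw [← div_eq_inv_mul]
      exact ⟨by rw [lt_div_iff₀ hβ]; linarith [h6.2], by rw [div_lt_iff₀ hβ]; linarith [h7.2]⟩
  refine lt_of_lt_of_le ?_ (measure_mono h5)
  rw [Real.volume_Ioo]
  rw [ENNReal.ofReal_pos, sub_pos, max_lt_iff, lt_min_iff, lt_min_iff]
  exact ⟨⟨mul_lt_mul_of_pos_left hpq hα, h3⟩, h4, mul_lt_mul_of_pos_left hrs hβ⟩

/-- The set `Ω` does not tile multiplicatively. -/
lemma not_tiles (A' : Set (ℝ ≃ₜ+ ℝ))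
    (h : ∀ᵐ ξ : ℝ, ∑' α : A', ((α : ℝ ≃ₜ+ ℝ) '' Om P).indicator (fun _ => (1 : ℝ≥0∞)) ξ = 1) :
    False := by
  classical
  have k1 := x_pos P
  have k2 := x_lt_y P
  have k3 := y_lt_qx P
  have k4 := qx_lt_s P
  have k5 := q_ge P
  have k6 := q2_ge P
  have k7 := s_le P
  have k8 := s_lt_q1x P
  have a1 := qy P
  have a2 := qqx P
  have a3 := qs P
  have hqp := q_pos P
  have hcov : ∀ᵐ ξ : ℝ, ∃ α ∈ A', ξ ∈ α '' Om P := by
    filter_upwards [h] with ξ h1
    by_contra hcon
    push Not at hcon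
    have : ∑' α : A', ((α : ℝ ≃ₜ+ ℝ) '' Om P).indicator (fun _ => (1 : ℝ≥0∞)) ξ = 0 := by
      rw [ENNReal.tsum_eq_zero]
      intro α
      exact indicator_of_notMem (hcon α α.2) _
    rw [this] at h1
    exact zero_ne_one h1
  have hdis : ∀ α ∈ A', ∀ β ∈ A', α ≠ β → volume (α '' Om P ∩ β '' Om P) = 0 := by
    intro α hα β hβ hne
    refine measure_mono_null ?_ (ae_iff.1 h)
    rintro ξ ⟨h1, h2⟩
    simp only [mem_ofPred_eq]
    intro h3
    have h4 : ∑ γ ∈ ({(⟨α, hα⟩ : A'), ⟨β, hβ⟩} : Finset A'),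
        ((γ : ℝ ≃ₜ+ ℝ) '' Om P).indicator (fun _ => (1 : ℝ≥0∞)) ξ ≤ 1 :=
      (ENNReal.sum_le_tsum _).trans_eq h3
    rw [Finset.sum_pair (by
      intro h5
      exact hne (congrArg Subtype.val h5)), indicator_of_mem h1, indicator_of_mem h2] at h4
    exact absurd h4 (by norm_num)
  have hex : ∀ (p q : ℝ), p < q → 0 ≤ p →
      ∃ α ∈ A', 0 < α 1 ∧ ∃ ξ ∈ Ioo p q, ξ ∈ α '' Om P := by
    intro p q hpq hp
    have h1 : ∃ ξ ∈ Ioo p q, ∃ α ∈ A', ξ ∈ α '' Om P := by
      by_contra hcon
      push Not at hcon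
      have h2 : volume (Ioo p q) = 0 := by
        refine measure_mono_null ?_ (ae_iff.1 hcov)
        intro ξ hξ h3
        obtain ⟨α, h4, h5⟩ := h3
        exact hcon ξ hξ α h4 h5
      rw [Real.volume_Ioo, ENNReal.ofReal_eq_zero] at h2
      linarith
    obtain ⟨ξ, h2, α, h3, h4⟩ := h1
    refine ⟨α, h3, ?_, ξ, h2, h4⟩
    obtain ⟨x, h5, rfl⟩ := h4
    have h6 := Om_pos P h5
    have h7 : 0 < α x := lt_of_le_of_lt hp h2.1
    rw [auto_apply] at h7
    exact (pos_iff_pos_of_mul_pos h7).2 h6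
  obtain ⟨β, hβ, hβ0, -⟩ := hex 0 1 one_pos le_rfl
  obtain ⟨α, hα, hα0, ξ, ⟨h1, h2⟩, t, ht, rfl⟩ :=
    hex (P.q * P.x * β 1) (P.s * β 1) (mul_lt_mul_of_pos_right k4 hβ0) (by positivity)
  rw [auto_apply α t] at h1 h2
  have hne : α ≠ β := by
    rintro rfl
    have h3 : t < P.s := by
      by_contra hcon
      have := mul_le_mul_of_nonneg_left (not_lt.1 hcon) hβ0.le
      linarith
    have h4 : P.q * P.x < t := by
      by_contra hcon
      have := mul_le_mul_of_nonneg_left (not_lt.1 hcon) hβ0.le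
      linarith
    rcases ht with ((⟨h5, h6⟩ | ⟨h5, h6⟩) | ⟨h5, h6⟩) | ⟨h5, h6⟩ <;> linarith
  have hz := hdis α hα β hβ hne
  have hpos : 0 < volume (α '' Om P ∩ β '' Om P) := by
    set a := α 1 with ha
    set b := β 1 with hb
    have hpB : P.s < P.s + 1 := by linarith
    have hpC : P.s + P.q < P.x + 1 + P.q := by linarith
    have hs0 : 0 < P.s := by linarith
    -- products
    have m1 : b * P.y < b * (P.q * P.x) := mul_lt_mul_of_pos_left k3 hβ0
    have m2 : b * (P.q * P.x) < b * P.s := mul_lt_mul_of_pos_left k4 hβ0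
    have m3 : b * P.x < b * P.y := mul_lt_mul_of_pos_left k2 hβ0
    have m4 : b * P.s ≤ b * 1 := mul_le_mul_of_nonneg_left k7 hβ0.le
    have m5 : a * P.s ≤ a * 1 := mul_le_mul_of_nonneg_left k7 hα0.le
    have m6 : 0 < a * P.s := mul_pos hα0 hs0
    have m7 : 0 < a * P.x := mul_pos hα0 k1
    have m8 : 0 < b * P.x := mul_pos hβ0 k1
    rcases ht with ((⟨h5, h6⟩ | ⟨h5, h6⟩) | ⟨h5, h6⟩) | ⟨h5, h6⟩
    · have h7 : a * P.x ≤ a * t := mul_le_mul_of_nonneg_left h5 hα0.le
      have h8 : a * t < a * P.y := mul_lt_mul_of_pos_left h6 hα0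
      rcases lt_or_ge a (P.q * b) with h9 | h9
      · refine ov P α β hα0 hβ0 (sub_B P) (sub_B P) hpB hpB ?_ ?_
        · -- a s < b (s+1) = q b s
          have h10 : a * P.s < P.q * b * P.s := mul_lt_mul_of_pos_right h9 hs0
          have h11 : b * (P.s + 1) = P.q * b * P.s := by rw [← a3]; ring
          rw [h11]; exact h10
        · -- b s < a (s+1)
          have h10 : b < a := by
            by_contra hcon
            have := mul_le_mul_of_nonneg_right (not_lt.1 hcon) (k1.trans k2).le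
            linarith
          have h11 := mul_lt_mul_of_pos_right h10 hs0
          linarith
      · refine ov P α β hα0 hβ0 (sub_B P) (sub_C P) hpB hpC ?_ ?_
        · -- a s < b (x + 1 + q)
          have h10 : a * P.s < a * (P.q * P.x + P.x) := mul_lt_mul_of_pos_left k8 hα0
          have h11 : (P.q + 1) * (a * P.x) < (P.q + 1) * (P.s * b) :=
            mul_lt_mul_of_pos_left (by linarith) (by linarith)
          have h12 : (P.q + 1) * (P.s * b) = 2 * (b * P.s) + b := by
            linear_combination b * a3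
          have h13 : a * (P.q * P.x + P.x) = (P.q + 1) * (a * P.x) := by ring
          have h14 : b * 2 ≤ b * P.q := mul_le_mul_of_nonneg_left k5 hβ0.le
          have h15 : b * (P.x + 1 + P.q) = b * P.x + b + b * P.q := by ring
          rw [h15]
          linarith
        · -- b (s + q) < a (s + 1)
          have h10 : P.q * b * (P.s + 1) ≤ a * (P.s + 1) :=
            mul_le_mul_of_nonneg_right h9 (by linarith)
          have h11 : P.q * b * (P.s + 1) = b * (P.s + P.q) + b := by
            linear_combination b * a3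
          linarith
    · have h7 : a * P.s ≤ a * t := mul_le_mul_of_nonneg_left h5 hα0.le
      have h8 : a * t < a * (P.s + 1) := mul_lt_mul_of_pos_left h6 hα0
      have h8' : a * (P.s + 1) = a * P.s + a := by ring
      rcases lt_or_ge b (P.q * a) with h9 | h9
      · refine ov P α β hα0 hβ0 (sub_B P) (sub_B P) hpB hpB ?_ ?_
        · have h11 : b * (P.s + 1) = b * P.s + b := by ring
          rw [h11]
          linarith
        · have h10 : b * P.s < P.q * a * P.s := mul_lt_mul_of_pos_right h9 hs0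
          have h11 : P.q * a * P.s = a * (P.s + 1) := by rw [← a3]; ring
          linarith
      · refine ov P α β hα0 hβ0 (sub_B P) (sub_A P) hpB k2 ?_ ?_
        · -- a s < b y
          have h10 : P.q * a * P.s ≤ b * P.s := mul_le_mul_of_nonneg_right h9 hs0.le
          have h11 : P.q * (b * P.y) = b * P.x + b := by linear_combination b * a1
          have h12 : P.q * (a * P.s) < P.q * (b * P.y) := by
            rw [h11]
            have : P.q * (a * P.s) = P.q * a * P.s := by ring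
            rw [this]
            linarith
          exact lt_of_mul_lt_mul_left h12 hqp.le
        · linarith
    · have h7 : a * (P.s + P.q) ≤ a * t := mul_le_mul_of_nonneg_left h5 hα0.le
      have h8 : a * t < a * (P.x + 1 + P.q) := mul_lt_mul_of_pos_left h6 hα0
      refine ov P α β hα0 hβ0 (sub_B P) (sub_A P) hpB k2 ?_ ?_
      · -- a s ≤ a, q a < q (b y)
        have h9 : a * (P.s + P.q) = a * P.s + P.q * a := by ring
        have h11 : P.q * (b * P.y) = b * P.x + b := by linear_combination b * a1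
        have h12 : P.q * a < P.q * (b * P.y) := by
          rw [h11]
          linarith
        have h13 := lt_of_mul_lt_mul_left h12 hqp.le
        linarith
      · -- q (b x) < q (a (s+1))
        have h9 : a * (P.x + 1 + P.q) < a * (P.s + 1 + P.q) :=
          mul_lt_mul_of_pos_left (by linarith) hα0
        have h10 : P.q * (a * (P.s + 1)) = a * (P.s + 1 + P.q) := by
          linear_combination a * a3
        have h11 : P.q * (b * P.x) < P.q * (a * (P.s + 1)) := by
          rw [h10]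
          have : P.q * (b * P.x) = P.q * P.x * b := by ring
          rw [this]
          linarith
        exact lt_of_mul_lt_mul_left h11 hqp.le
    · have h7 : a * (P.y + 1 + P.q ^ 2) ≤ a * t := mul_le_mul_of_nonneg_left h5 hα0.le
      have h8 : a * t < a * (P.s + 1 + P.q ^ 2) := mul_lt_mul_of_pos_left h6 hα0
      refine ov P α β hα0 hβ0 (sub_C P) (sub_A P) hpC k2 ?_ ?_
      · -- a (s + q) < b y
        have h9 : P.q * (a * (P.s + P.q)) = a * (P.y + 1 + P.q ^ 2) + a * (P.s - P.y) := by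
          linear_combination a * a3
        have h10 : P.q * (P.q * a) < P.q * (P.q * (b * P.x)) := by
          have e1 : P.q * (P.q * (b * P.x)) = b * P.y + b := by linear_combination b * a2
          have e2 : a * (P.y + 1 + P.q ^ 2) = a * P.y + a + P.q * (P.q * a) := by ring
          have e3 : 0 < a * P.y := mul_pos hα0 (k1.trans k2)
          have e4 : 0 < b * P.y := mul_pos hβ0 (k1.trans k2)
          rw [e1]
          linarith
        have h11 : a < b * P.x :=
          lt_of_mul_lt_mul_left (lt_of_mul_lt_mul_left h10 hqp.le) hqp.le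
        have h12 : a * (P.s - P.y) ≤ a * 1 := mul_le_mul_of_nonneg_left (by linarith) hα0.le
        have h13 : P.q * (b * P.y) = b * P.x + b := by linear_combination b * a1
        have h14 : P.q * (a * (P.s + P.q)) < P.q * (b * P.y) := by
          rw [h9, h13]
          linarith
        exact lt_of_mul_lt_mul_left h14 hqp.le
      · -- q (b x) < a (s + 1 + q²) ≤ q a (x + 1 + q)
        have h9 : a * (P.s + 1 + P.q ^ 2) ≤ a * (P.q * P.x + P.q + P.q ^ 2) := by
          have : 0 < P.q * P.x := mul_pos hqp k1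
          exact mul_le_mul_of_nonneg_left (by linarith) hα0.le
        have h10 : P.q * (a * (P.x + 1 + P.q)) = a * (P.q * P.x + P.q + P.q ^ 2) := by ring
        have h11 : P.q * (b * P.x) < P.q * (a * (P.x + 1 + P.q)) := by
          rw [h10]
          have : P.q * (b * P.x) = P.q * P.x * b := by ring
          rw [this]
          linarith
        exact lt_of_mul_lt_mul_left h11 hqp.le
  exact hpos.ne' hz

end KS60.WQ
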