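import Pool.Agent.KS6_60.WQ.Orth

/-!
# `Ω_q` is a wavelet set: orthogonality and totality
-/

set_option autoImplicit false

namespace KS60.WQ

open MeasureTheory Complex Set FourierTransform
open scoped ENNReal InnerProductSpace Interval
open Pool.Agent.R290.WaveFT

variable (P : Par)

lemma Om_vol : volume (Om P) < ⊤ := by
  refine lt_of_le_of_lt (measure_mono (t := Icc 0 (P.s + 1 + P.q ^ 2)) fun x hx => ?_)
    measure_Icc_lt_top
  exact ⟨(Om_pos P hx).le, (Om_lt P hx).le⟩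

lemma Om_vol_pos : 0 < volume (Om P) := by
  refine lt_of_lt_of_le ?_ (measure_mono (s := Ico P.s (P.s + 1)) fun x hx => ?_)
  · rw [Real.volume_Ico]; norm_num
  · exact Or.inl (Or.inl (Or.inr hx))

/-- `1_Ω` in `L²` -/
noncomputable def ind : L2 := indicatorConstLp 2 (Om_meas P) (Om_vol P).ne (1 : ℂ)

lemma ind_coe : ind P =ᵐ[volume] (Om P).indicator (fun _ => (1 : ℂ)) := indicatorConstLp_coeFn

/-- index type: sign, scale, frequency number -/
abbrev Idx : Type := Bool × ℤ × ℤ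

/-- the sign -/
noncomputable def sg (b : Bool) : ℝ := if b then 1 else -1

/-- the dilation `± c q^n` -/
noncomputable def dil (c : ℝ) (i : Idx) : ℝ := sg i.1 * c * P.q ^ i.2.1

/-- the translation `m + b` -/
noncomputable def fr (i : Idx) : ℝ := i.2.2 + P.b

lemma sg_sq (b : Bool) : sg b * sg b = 1 := by
  unfold sg; split_ifs <;> norm_num

lemma sg_ne (b : Bool) : sg b ≠ 0 := by
  unfold sg; split_ifs <;> norm_num

lemma dil_ne (c : ℝ) (hc : 0 < c) (i : Idx) : dil P c i ≠ 0 := by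
  unfold dil
  have := sg_ne i.1
  have := q_pos P
  positivity

noncomputable def v (c : ℝ) (hc : 0 < c) (i : Idx) : L2 :=
  V (dil P c i) (fr P i) (dil_ne P c hc i) (ind P)

lemma v_coe (c : ℝ) (hc : 0 < c) (i : Idx) :
    v P c hc i =ᵐ[volume] fun ξ => ((√|dil P c i|⁻¹ : ℝ) : ℂ) *
      cexp (-(2 * Real.pi * fr P i * ξ / dil P c i : ℝ) * I) *
      (Om P).indicator (fun _ => (1 : ℂ)) (ξ / dil P c i) := by
  refine (V_coe _ _ _ _).trans ?_
  have h := (quasi (dil P c i)⁻¹ 0 (inv_ne_zero (dil_ne P c hc i))).ae (ind_coe P)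
  filter_upwards [h] with ξ h1
  have h2 : (dil P c i)⁻¹ * ξ + 0 = ξ / dil P c i := by rw [add_zero, div_eq_inv_mul]
  rw [h2] at h1
  rw [h1]

lemma conj_exp (x : ℝ) : (starRingEnd ℂ) (cexp (-(x : ℂ) * I)) = cexp ((x : ℂ) * I) := by
  rw [← Complex.exp_conj]
  congr 1
  simp

/-- orthogonality, `n_i = n_j + k` -/
lemma orth_aux (c : ℝ) (hc : 0 < c) (i j : Idx) (hs : i.1 = j.1) (k : ℕ)
    (hk : i.2.1 = j.2.1 + k) (hij : i ≠ j) : ⟪v P c hc i, v P c hc j⟫_ℂ = 0 := by
  have hq0 : P.q ≠ 0 := (q_pos P).ne'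
  rw [L2.inner_def]
  set r : ℂ := ((√|dil P c i|⁻¹ : ℝ) : ℂ) * ((√|dil P c j|⁻¹ : ℝ) : ℂ) with hr
  set β : ℝ := (i.2.2 + P.b) / P.q ^ k - (j.2.2 + P.b) with hβ
  set K : ℝ → ℂ := fun ξ => r * (cexp (((2 * Real.pi * fr P i * ξ / dil P c i : ℝ) : ℂ) * I) *
    cexp (-(2 * Real.pi * fr P j * ξ / dil P c j : ℝ) * I)) *
    ((Om P).indicator (fun _ => (1 : ℂ)) (ξ / dil P c i) *
      (Om P).indicator (fun _ => (1 : ℂ)) (ξ / dil P c j))
    with hK
  have h1 : ∫ ξ, ⟪v P c hc i ξ, v P c hc j ξ⟫_ℂ = ∫ ξ, K ξ := by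
    apply integral_congr_ae
    filter_upwards [v_coe P c hc i, v_coe P c hc j] with ξ h2 h3
    rw [h2, h3, RCLike.inner_apply]
    simp only [map_mul, Complex.conj_ofReal, conj_exp, hK, hr]
    have h4 : (starRingEnd ℂ) ((Om P).indicator (fun _ => (1 : ℂ)) (ξ / dil P c i)) =
        (Om P).indicator (fun _ => (1 : ℂ)) (ξ / dil P c i) := by
      by_cases h : ξ / dil P c i ∈ Om P
      · rw [indicator_of_mem h]; simp
      · rw [indicator_of_notMem h]; simp
    rw [h4]
    ring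
  have hdj := dil_ne P c hc j
  have hdi : dil P c i = dil P c j * P.q ^ k := by
    unfold dil
    rw [hs, hk, zpow_add₀ hq0, zpow_natCast]
    ring
  have hfr : ∀ η : ℝ, 2 * Real.pi * fr P i * (dil P c j * η) / dil P c i +
      -(2 * Real.pi * fr P j * (dil P c j * η) / dil P c j) = 2 * Real.pi * β * η := by
    intro η
    have h2k : P.q ^ k ≠ 0 := pow_ne_zero k hq0
    rw [hdi, hβ]
    unfold fr
    field_simp
    ring
  have h2 : ∀ η : ℝ, K (dil P c j * η) =
      r * ({η | η ∈ Om P ∧ η / P.q ^ k ∈ Om P}.indicator (fun η => E β η) η) := by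
    intro η
    simp only [hK]
    have e1 : dil P c j * η / dil P c j = η := by
      rw [mul_comm, mul_div_assoc, div_self hdj, mul_one]
    have e2 : dil P c j * η / dil P c i = η / P.q ^ k := by
      rw [hdi, mul_div_mul_left _ _ hdj]
    rw [← Complex.exp_add]
    have e3 : ((2 * Real.pi * fr P i * (dil P c j * η) / dil P c i : ℝ) : ℂ) * I +
        -((2 * Real.pi * fr P j * (dil P c j * η) / dil P c j : ℝ) : ℂ) * I =
        ((2 * Real.pi * β * η : ℝ) : ℂ) * I := by
      rw [← hfr η]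
      push_cast
      ring
    rw [e3, e1, e2, mul_assoc]
    congr 1
    by_cases h3 : η ∈ Om P <;> by_cases h4 : η / P.q ^ k ∈ Om P
    · rw [indicator_of_mem h4, indicator_of_mem h3, indicator_of_mem (by exact ⟨h3, h4⟩)]
      unfold E
      ring
    · have hn : η ∉ {η : ℝ | η ∈ Om P ∧ η / P.q ^ k ∈ Om P} := fun h => h4 h.2
      rw [indicator_of_notMem h4, indicator_of_notMem hn]
      ring
    · have hn : η ∉ {η : ℝ | η ∈ Om P ∧ η / P.q ^ k ∈ Om P} := fun h => h3 h.1
      rw [indicator_of_notMem h3, indicator_of_notMem hn]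
      ring
    · have hn : η ∉ {η : ℝ | η ∈ Om P ∧ η / P.q ^ k ∈ Om P} := fun h => h3 h.1
      rw [indicator_of_notMem h3, indicator_of_notMem hn]
      ring
  have hmeas : MeasurableSet {η : ℝ | η ∈ Om P ∧ η / P.q ^ k ∈ Om P} :=
    (Om_meas P).inter ((measurable_id.div_const _) (Om_meas P))
  have h3 : ∫ η, K (dil P c j * η) = 0 := by
    simp only [h2]
    rw [integral_const_mul, integral_indicator hmeas,
      overlap P k i.2.2 j.2.2 (by
        intro h0 h4
        apply hij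
        apply Prod.ext hs
        apply Prod.ext
        · rw [hk, h0]; simp
        · exact h4) β hβ, mul_zero]
  rw [h1]
  rw [Measure.integral_comp_mul_left K (dil P c j)] at h3
  rcases smul_eq_zero.1 h3 with h4 | h4
  · exact absurd (abs_eq_zero.1 h4) (inv_ne_zero hdj)
  · exact h4

lemma orth (c : ℝ) (hc : 0 < c) (i j : Idx) (hij : i ≠ j) :
    ⟪v P c hc i, v P c hc j⟫_ℂ = 0 := by
  have hqp := q_pos P
  by_cases hs : i.1 = j.1
  · rcases le_total j.2.1 i.2.1 with h | h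
    · obtain ⟨k, hk⟩ := Int.eq_ofNat_of_zero_le (sub_nonneg.2 h)
      exact orth_aux P c hc i j hs k (by omega) hij
    · obtain ⟨k, hk⟩ := Int.eq_ofNat_of_zero_le (sub_nonneg.2 h)
      rw [inner_eq_zero_symm]
      exact orth_aux P c hc j i hs.symm k (by omega) (Ne.symm hij)
  · rw [L2.inner_def]
    apply integral_eq_zero_of_ae
    filter_upwards [v_coe P c hc i, v_coe P c hc j] with ξ h2 h3
    rw [h2, h3]
    have h4 : ¬ (ξ / dil P c i ∈ Om P ∧ ξ / dil P c j ∈ Om P) := by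
      rintro ⟨h5, h6⟩
      have h7 := Om_pos P h5
      have h8 := Om_pos P h6
      have h9 : 0 < (ξ / dil P c i) * (ξ / dil P c j) := mul_pos h7 h8
      have h10 : dil P c i * dil P c j < 0 := by
        have hsg : sg i.1 * sg j.1 = -1 := by
          unfold sg
          rcases hi : i.1 <;> rcases hj : j.1
          · rw [hi, hj] at hs; exact absurd rfl hs
          · norm_num
          · norm_num
          · rw [hi, hj] at hs; exact absurd rfl hs
        unfold dil
        have : sg i.1 * c * P.q ^ i.2.1 * (sg j.1 * c * P.q ^ j.2.1) =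
            (sg i.1 * sg j.1) * (c * c * (P.q ^ i.2.1 * P.q ^ j.2.1)) := by ring
        rw [this, hsg]
        have : 0 < c * c * (P.q ^ i.2.1 * P.q ^ j.2.1) := by positivity
        linarith
      rw [div_mul_div_comm] at h9
      have h11 : 0 ≤ ξ * ξ := mul_self_nonneg ξ
      have h12 : (ξ * ξ) / (dil P c i * dil P c j) ≤ 0 :=
        div_nonpos_of_nonneg_of_nonpos h11 h10.le
      linarith
    by_cases h5 : ξ / dil P c i ∈ Om P
    · have h6 : ξ / dil P c j ∉ Om P := fun h => h4 ⟨h5, h⟩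
      rw [indicator_of_notMem h6]
      simp
    · rw [indicator_of_notMem h5]
      simp

/-! ### Totality -/

section total

variable (c : ℝ) (hc : 0 < c) (f : L2)

lemma relations (hf : ∀ i, ⟪v P c hc i, f⟫_ℂ = 0) (b : Bool) (n : ℤ) (a : ℝ)
    (ha : a = sg b * c * P.q ^ n) :
    (∀ᵐ η : ℝ, η ∈ Ico P.x P.y → f (a * η) = - w P * f (a * (η + 1))) ∧
    (∀ᵐ η : ℝ, η ∈ Ico P.s (P.x + 1) → f (a * η) = w P * f (a * (η + P.q))) ∧
    (∀ᵐ η : ℝ, η ∈ Ico (P.y + 1) (P.s + 1) → f (a * η) = w P * f (a * (η + P.q ^ 2))) := by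
  have hqp := q_pos P
  have hane : a ≠ 0 := by
    rw [ha]
    have := sg_ne b
    positivity
  set g : ℝ → ℂ := fun η => f (a * η) with hg
  have hgL : MemLp g 2 volume := by
    have h1 := memLp_comp f (Lp.memLp f) a 0 hane
    simp only [add_zero] at h1
    exact h1
  have key : ∀ m : ℤ, ∫ η in Om P, cexp (2 * Real.pi * (m + P.b) * η * I) * g η = 0 := by
    intro m
    have h0 := hf (b, n, m)
    have hdil : dil P c (b, n, m) = a := by rw [ha]; rfl
    rw [L2.inner_def] at h0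
    set K : ℝ → ℂ := fun ξ => ((√|a|⁻¹ : ℝ) : ℂ) *
      (cexp (((2 * Real.pi * fr P (b, n, m) * ξ / a : ℝ) : ℂ) * I) *
      (Om P).indicator (fun _ => (1 : ℂ)) (ξ / a) * f ξ) with hK
    have h1 : ∫ ξ, ⟪v P c hc (b, n, m) ξ, f ξ⟫_ℂ = ∫ ξ, K ξ := by
      apply integral_congr_ae
      filter_upwards [v_coe P c hc (b, n, m)] with ξ h2
      rw [h2, RCLike.inner_apply, hdil]
      simp only [map_mul, Complex.conj_ofReal, conj_exp, hK]
      have h4 : (starRingEnd ℂ) ((Om P).indicator (fun _ => (1 : ℂ)) (ξ / a)) =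
          (Om P).indicator (fun _ => (1 : ℂ)) (ξ / a) := by
        by_cases h : ξ / a ∈ Om P
        · rw [indicator_of_mem h]; simp
        · rw [indicator_of_notMem h]; simp
      rw [h4]
      ring
    rw [h1] at h0
    have h2 : ∫ η, K (a * η) = 0 := by
      rw [Measure.integral_comp_mul_left K a, h0, smul_zero]
    have h3 : ∀ η : ℝ, K (a * η) = ((√|a|⁻¹ : ℝ) : ℂ) *
        (Om P).indicator (fun η => cexp (2 * Real.pi * (m + P.b) * η * I) * g η) η := by
      intro η
      simp only [hK]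
      have e1 : a * η / a = η := by rw [mul_comm, mul_div_assoc, div_self hane, mul_one]
      rw [e1]
      congr 1
      by_cases h4 : η ∈ Om P
      · rw [indicator_of_mem h4, indicator_of_mem h4, mul_one]
        simp only [hg]
        have e2 : 2 * Real.pi * fr P (b, n, m) * (a * η) / a =
            2 * Real.pi * fr P (b, n, m) * η := by
          field_simp
        rw [e2]
        congr 2
        unfold fr
        push_cast
        ring
      · rw [indicator_of_notMem h4, indicator_of_notMem h4]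
        ring
    simp only [h3] at h2
    rw [integral_const_mul, integral_indicator (Om_meas P)] at h2
    rcases mul_eq_zero.1 h2 with h4 | h4
    · exfalso
      have : (√|a|⁻¹ : ℝ) ≠ 0 := by
        apply (Real.sqrt_pos.2 _).ne'
        exact inv_pos.2 (abs_pos.2 hane)
      exact this (by exact_mod_cast h4)
    · exact h4
  exact period P g hgL key

lemma zero_pieces (hf : ∀ i, ⟪v P c hc i, f⟫_ℂ = 0) (b : Bool) (n : ℤ) :
    ∀ᵐ ζ : ℝ, ζ ∈ Ico P.x P.y →
      f (sg b * c * P.q ^ n * ζ) = 0 ∧ f (sg b * c * P.q ^ n * (ζ + 1)) = 0 := by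
  have hq0 : P.q ≠ 0 := (q_pos P).ne'
  have hqp := q_pos P
  have k1 := x_pos P
  have a1 := qy P
  have a2 := qqx P
  have a3 := qs P
  have h1 := (relations P c hc f hf b n _ rfl).1
  have h2 := (relations P c hc f hf b (n - 1) _ rfl).2.1
  have h3 := (relations P c hc f hf b (n - 2) _ rfl).2.2
  have e1 : P.q ^ n = P.q ^ (n - 1) * P.q := by
    rw [← zpow_add_one₀ hq0]
    congr 1
    ring
  have e2 : P.q ^ n = P.q ^ (n - 2) * P.q ^ 2 := by
    have : P.q ^ 2 = P.q ^ (2:ℤ) := by norm_cast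
    rw [this, ← zpow_add₀ hq0]
    congr 1
    ring
  have h2' := (quasi P.q 0 hq0).ae h2
  have h3' := (quasi (P.q ^ 2) 0 (pow_ne_zero 2 hq0)).ae h3
  filter_upwards [h1, h2', h3'] with ζ h4 h5 h6 hζ
  have h7 := h4 hζ
  have hw := w_ne P
  have h8 : f (sg b * c * P.q ^ n * ζ) = w P * f (sg b * c * P.q ^ n * (ζ + 1)) := by
    rcases lt_or_ge (P.q * ζ) P.s with hlt | hge
    · have h9 := h6 ⟨by
          have := mul_le_mul_of_nonneg_left hζ.1 (sq_nonneg P.q)
          nlinarith [a2], by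
          have := mul_lt_mul_of_pos_left hlt hqp
          nlinarith [a3]⟩
      have e3 : sg b * c * P.q ^ (n - 2) * (P.q ^ 2 * ζ + 0) = sg b * c * P.q ^ n * ζ := by
        rw [e2]; ring
      have e4 : sg b * c * P.q ^ (n - 2) * (P.q ^ 2 * ζ + 0 + P.q ^ 2) =
          sg b * c * P.q ^ n * (ζ + 1) := by
        rw [e2]; ring
      rwa [e3, e4] at h9
    · have h9 := h5 ⟨by linarith, by
          have := mul_lt_mul_of_pos_left hζ.2 hqp
          linarith⟩
      have e3 : sg b * c * P.q ^ (n - 1) * (P.q * ζ + 0) = sg b * c * P.q ^ n * ζ := by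
        rw [e1]; ring
      have e4 : sg b * c * P.q ^ (n - 1) * (P.q * ζ + 0 + P.q) = sg b * c * P.q ^ n * (ζ + 1) := by
        rw [e1]; ring
      rwa [e3, e4] at h9
  have h10 : f (sg b * c * P.q ^ n * (ζ + 1)) = 0 := by
    rw [h7] at h8
    have h11 : (2 * w P) * f (sg b * c * P.q ^ n * (ζ + 1)) = 0 := by
      linear_combination -h8
    exact (mul_eq_zero.1 h11).resolve_left (mul_ne_zero two_ne_zero hw)
  exact ⟨by rw [h7, h10, mul_zero], h10⟩

lemma f_zero (hf : ∀ i, ⟪v P c hc i, f⟫_ℂ = 0) : ∀ᵐ ξ : ℝ, f ξ = 0 := by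
  have hq0 : P.q ≠ 0 := (q_pos P).ne'
  have hqp := q_pos P
  have k1 := x_pos P
  have k2 := x_lt_y P
  have k3 := y_lt_qx P
  have k5 := q_ge P
  have a1 := qy P
  have a2 := qqx P
  have hA : ∀ (b : Bool) (n : ℤ), ∀ᵐ ξ : ℝ,
      (ξ / (sg b * c * P.q ^ n) ∈ Ico P.x P.y → f ξ = 0) ∧
      (ξ / (sg b * c * P.q ^ n) - 1 ∈ Ico P.x P.y → f ξ = 0) := by
    intro b n
    have hne : sg b * c * P.q ^ n ≠ 0 := by
      have := sg_ne b
      positivity
    have h0 := zero_pieces P c hc f hf b n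
    have h1 := (quasi (sg b * c * P.q ^ n)⁻¹ 0 (inv_ne_zero hne)).ae h0
    have h2 := (quasi (sg b * c * P.q ^ n)⁻¹ (-1) (inv_ne_zero hne)).ae h0
    filter_upwards [h1, h2] with ξ h3 h4
    constructor
    · intro h5
      have e1 : (sg b * c * P.q ^ n)⁻¹ * ξ + 0 = ξ / (sg b * c * P.q ^ n) := by
        rw [add_zero, div_eq_inv_mul]
      rw [e1] at h3
      have := (h3 h5).1
      rwa [mul_div_cancel₀ _ hne] at this
    · intro h5
      have e1 : (sg b * c * P.q ^ n)⁻¹ * ξ + -1 = ξ / (sg b * c * P.q ^ n) - 1 := by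
        rw [div_eq_inv_mul, sub_eq_add_neg]
      rw [e1] at h4
      have := (h4 h5).2
      rwa [sub_add_cancel, mul_div_cancel₀ _ hne] at this
  have hB : ∀ᵐ ξ : ℝ, ∀ (b : Bool) (n : ℤ),
      (ξ / (sg b * c * P.q ^ n) ∈ Ico P.x P.y → f ξ = 0) ∧
      (ξ / (sg b * c * P.q ^ n) - 1 ∈ Ico P.x P.y → f ξ = 0) := by
    rw [ae_all_iff]
    intro b
    rw [ae_all_iff]
    intro n
    exact hA b n
  have hne : ∀ᵐ x : ℝ, x ≠ 0 := by
    simp [ae_iff, measure_singleton]
  filter_upwards [hB, hne] with ξ h1 h2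
  -- sign
  obtain ⟨b, hb⟩ : ∃ b : Bool, 0 < ξ / (sg b * c) := by
    rcases lt_or_gt_of_ne h2 with h3 | h3
    · refine ⟨false, ?_⟩
      have : sg false * c < 0 := by unfold sg; simp [hc]
      exact div_pos_of_neg_of_neg h3 this
    · refine ⟨true, ?_⟩
      have : 0 < sg true * c := by unfold sg; simp [hc]
      exact div_pos h3 this
  set t := ξ / (sg b * c) with ht
  have ht' : 0 < t / P.x := by positivity
  obtain ⟨N, hN1, hN2⟩ := exists_mem_Ico_zpow ht' (by linarith : (1:ℝ) < P.q)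
  have h2N : (0:ℝ) < P.q ^ N := by positivity
  have e1 : ∀ n : ℤ, ξ / (sg b * c * P.q ^ n) = t / P.q ^ n := by
    intro n
    rw [ht, div_div]
  have h3 : P.x ≤ t / P.q ^ N := by
    rw [le_div_iff₀ h2N]
    rw [le_div_iff₀ k1] at hN1
    linarith
  have h4 : t / P.q ^ N < P.q * P.x := by
    rw [div_lt_iff₀ h2N]
    rw [div_lt_iff₀ k1, zpow_add_one₀ hq0] at hN2
    linarith
  rcases lt_or_ge (t / P.q ^ N) P.y with h5 | h5
  · exact (h1 b N).1 (by rw [e1]; exact ⟨h3, h5⟩)
  · refine (h1 b (N - 1)).2 ?_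
    rw [e1]
    have e2 : t / P.q ^ (N - 1) = P.q * (t / P.q ^ N) := by
      rw [zpow_sub_one₀ hq0]
      field_simp
    rw [e2]
    have h6 := mul_le_mul_of_nonneg_left h5 hqp.le
    have h7 := mul_lt_mul_of_pos_left h4 hqp
    constructor <;> linarith

lemma total (hf : ∀ i, ⟪v P c hc i, f⟫_ℂ = 0) : f = 0 := by
  apply Lp.ext
  filter_upwards [f_zero P c hc f hf, Lp.coeFn_zero ℂ 2 (volume : Measure ℝ)] with ξ h1 h2
  rw [h2, h1]
  rfl

end total

end KS60.WQ
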