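import Pool.Agent.KS6_60.WQ.Basis

/-!
# Vanishing overlap integrals
-/

set_option autoImplicit false

namespace KS60.WQ

open MeasureTheory Complex Set
open scoped ENNReal InnerProductSpace Interval
open Pool.Agent.R290.WaveFT

variable (P : Par)

/-- exponentials -/
noncomputable def E (β η : ℝ) : ℂ := cexp (((2 * Real.pi * β * η : ℝ) : ℂ) * I)

lemma E_cont (β : ℝ) : Continuous (E β) := by unfold E; fun_prop

lemma E_add (β x y : ℝ) : E β (x + y) = E β x * E β y := by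
  unfold E
  rw [← Complex.exp_add]
  congr 1
  push_cast
  ring

lemma E_int (j : ℤ) (x : ℝ) (hx : (j : ℝ) = x) : cexp (((2 * Real.pi * x : ℝ) : ℂ) * I) = 1 := by
  have : (((2 * Real.pi * x : ℝ) : ℂ) * I) = (j : ℂ) * (2 * Real.pi * I) := by
    rw [← hx]; push_cast; ring
  rw [this, Complex.exp_int_mul_two_pi_mul_I]

lemma E_half (j : ℤ) (x : ℝ) (hx : (j : ℝ) + 1 / 2 = x) :
    cexp (((2 * Real.pi * x : ℝ) : ℂ) * I) = -1 := by
  have : (((2 * Real.pi * x : ℝ) : ℂ) * I) = (j : ℂ) * (2 * Real.pi * I) + Real.pi * I := by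
    rw [← hx]; push_cast; ring
  rw [this, Complex.exp_add, Complex.exp_int_mul_two_pi_mul_I, Complex.exp_pi_mul_I, one_mul]

lemma int_E (β a b : ℝ) (hβ : β ≠ 0) :
    ∫ η in a..b, E β η = (E β b - E β a) / ((2 * Real.pi * β : ℝ) * I) := by
  have hc : ((2 * Real.pi * β : ℝ) : ℂ) * I ≠ 0 := by
    apply mul_ne_zero _ I_ne_zero
    exact_mod_cast (by positivity : (2 * Real.pi * β : ℝ) ≠ 0)
  have h := integral_exp_mul_complex (a := a) (b := b) hc
  have h1 : ∀ x : ℝ, E β x = cexp (((2 * Real.pi * β : ℝ) : ℂ) * I * x) := by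
    intro x
    unfold E
    congr 1
    push_cast
    ring
  simp only [h1]
  exact h

/-- membership in `t Ω` for `t > 0` -/
lemma mem_div {t η : ℝ} (ht : 0 < t) : η / t ∈ Om P ↔
    (((t * P.x ≤ η ∧ η < t * P.y) ∨ (t * P.s ≤ η ∧ η < t * P.s + t)) ∨
      (t * P.s + t * P.q ≤ η ∧ η < t * P.x + t + t * P.q)) ∨
      (t * P.y + t + t * P.q ^ 2 ≤ η ∧ η < t * P.s + t + t * P.q ^ 2) := by
  have key : ∀ u v : ℝ, η / t ∈ Ico u v ↔ t * u ≤ η ∧ η < t * v := by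
    intro u v
    rw [mem_Ico, le_div_iff₀ ht, div_lt_iff₀ ht, mul_comm u, mul_comm v]
  unfold Om
  rw [mem_union, mem_union, mem_union, key, key, key, key]
  have e1 : t * (P.s + 1) = t * P.s + t := by ring
  have e2 : t * (P.s + P.q) = t * P.s + t * P.q := by ring
  have e3 : t * (P.x + 1 + P.q) = t * P.x + t + t * P.q := by ring
  have e4 : t * (P.y + 1 + P.q ^ 2) = t * P.y + t + t * P.q ^ 2 := by ring
  have e5 : t * (P.s + 1 + P.q ^ 2) = t * P.s + t + t * P.q ^ 2 := by ring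
  rw [e1, e2, e3, e4, e5]

lemma mem_div_one (η : ℝ) : η / P.q ∈ Om P ↔
    (((P.q * P.x ≤ η ∧ η < P.x + 1) ∨ (P.s + 1 ≤ η ∧ η < P.s + 1 + P.q)) ∨
      (P.s + 1 + P.q ^ 2 ≤ η ∧ η < P.q * P.x + P.q + P.q ^ 2)) ∨
      (P.x + 1 + P.q + P.q ^ 3 ≤ η ∧ η < P.s + 1 + P.q + P.q ^ 3) := by
  rw [mem_div P (q_pos P), qs, qy]
  have e1 : P.q * P.q = P.q ^ 2 := by ring
  have e2 : P.q * P.q ^ 2 = P.q ^ 3 := by ring
  rw [e1, e2]

lemma mem_div_two (η : ℝ) : η / P.q ^ 2 ∈ Om P ↔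
    (((P.y + 1 ≤ η ∧ η < P.q * P.x + P.q) ∨ (P.s + 1 + P.q ≤ η ∧ η < P.s + 1 + P.q + P.q ^ 2)) ∨
      (P.s + 1 + P.q + P.q ^ 3 ≤ η ∧ η < P.y + 1 + P.q ^ 2 + P.q ^ 3)) ∨
      (P.q * P.x + P.q + P.q ^ 2 + P.q ^ 4 ≤ η ∧ η < P.s + 1 + P.q + P.q ^ 2 + P.q ^ 4) := by
  rw [mem_div P (pow_pos (q_pos P) 2)]
  have e1 : P.q ^ 2 * P.x = P.y + 1 := by rw [← qqx P]; ring
  have e2 : P.q ^ 2 * P.y = P.q * P.x + P.q := by
    have := qy P
    linear_combination P.q * this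
  have e3 : P.q ^ 2 * P.s = P.s + 1 + P.q := by
    have := qs P
    linear_combination (P.q + 1) * this
  have e4 : P.q ^ 2 * P.q = P.q ^ 3 := by ring
  have e5 : P.q ^ 2 * P.q ^ 2 = P.q ^ 4 := by ring
  rw [e1, e2, e3, e4, e5]

lemma q4_ge : 2 * P.q ^ 3 ≤ P.q ^ 4 := by
  have h := q_ge P
  have h2 : 0 ≤ P.q ^ 3 := by have := q_pos P; positivity
  nlinarith

lemma inter_one (η : ℝ) : (η ∈ Om P ∧ η / P.q ∈ Om P) ↔
    η ∈ Ico P.s (P.x + 1) ∪ Ico (P.s + P.q) (P.x + 1 + P.q) := by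
  have k1 := x_pos P
  have k2 := x_lt_y P
  have k3 := y_lt_qx P
  have k4 := qx_lt_s P
  have k5 := q_ge P
  have k6 := q2_ge P
  have k7 := s_le P
  have k8 := q3_ge P
  rw [mem_div_one]
  constructor
  · rintro ⟨((⟨h1, h2⟩ | ⟨h1, h2⟩) | ⟨h1, h2⟩) | ⟨h1, h2⟩,
      ((⟨h3, h4⟩ | ⟨h3, h4⟩) | ⟨h3, h4⟩) | ⟨h3, h4⟩⟩
    all_goals first
      | (exfalso; linarith)
      | (left; constructor <;> linarith)
      | (right; constructor <;> linarith)
  · rintro (⟨h1, h2⟩ | ⟨h1, h2⟩)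
    · refine ⟨Or.inl (Or.inl (Or.inr ⟨by linarith, by linarith⟩)),
        Or.inl (Or.inl (Or.inl ⟨by linarith, by linarith⟩))⟩
    · refine ⟨Or.inl (Or.inr ⟨by linarith, by linarith⟩),
        Or.inl (Or.inl (Or.inr ⟨by linarith, by linarith⟩))⟩

lemma inter_two (η : ℝ) : (η ∈ Om P ∧ η / P.q ^ 2 ∈ Om P) ↔
    η ∈ Ico (P.y + 1) (P.s + 1) ∪ Ico (P.y + 1 + P.q ^ 2) (P.s + 1 + P.q ^ 2) := by
  have k1 := x_pos P
  have k2 := x_lt_y P
  have k3 := y_lt_qx P
  have k4 := qx_lt_s P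
  have k5 := q_ge P
  have k6 := q2_ge P
  have k7 := s_le P
  have k8 := q3_ge P
  have k9 := q4_ge P
  rw [mem_div_two]
  constructor
  · rintro ⟨((⟨h1, h2⟩ | ⟨h1, h2⟩) | ⟨h1, h2⟩) | ⟨h1, h2⟩,
      ((⟨h3, h4⟩ | ⟨h3, h4⟩) | ⟨h3, h4⟩) | ⟨h3, h4⟩⟩
    all_goals first
      | (exfalso; linarith)
      | (left; constructor <;> linarith)
      | (right; constructor <;> linarith)
  · rintro (⟨h1, h2⟩ | ⟨h1, h2⟩)
    · refine ⟨Or.inl (Or.inl (Or.inr ⟨by linarith, by linarith⟩)),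
        Or.inl (Or.inl (Or.inl ⟨by linarith, by linarith⟩))⟩
    · refine ⟨Or.inr ⟨by linarith, by linarith⟩,
        Or.inl (Or.inl (Or.inr ⟨by linarith, by linarith⟩))⟩

lemma inter_big (η : ℝ) (k : ℕ) (hk : 3 ≤ k) : ¬ (η ∈ Om P ∧ η / P.q ^ k ∈ Om P) := by
  have k1 := x_pos P
  have k2 := x_lt_y P
  have k3 := y_lt_qx P
  have k4 := qx_lt_s P
  have k5 := q_ge P
  have k6 := q2_ge P
  have k7 := s_le P
  have k8 := q3_ge P
  have k9 := q4_ge P
  rintro ⟨h1, h2⟩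
  have hlt := Om_lt P h1
  have hge := Om_ge P h2
  have hpos : (0:ℝ) < P.q ^ k := pow_pos (q_pos P) k
  rw [le_div_iff₀ hpos] at hge
  have e3 : P.q ^ 3 * P.x = P.x + 1 + P.q := by
    have a1 := qy P
    have a2 := qqx P
    linear_combination P.q * a2 + a1
  rcases Nat.lt_or_ge k 4 with h4 | h4
  · have hk3 : k = 3 := by omega
    subst hk3
    rw [mem_div P hpos] at h2
    have e4 : P.q ^ 3 * P.y = P.y + 1 + P.q ^ 2 := by
      have a1 := qy P
      have a2 := qqx P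
      linear_combination P.q ^ 2 * a1 + a2
    have e5 : P.q ^ 3 * P.s = P.s + 1 + P.q + P.q ^ 2 := by
      have := qs P
      linear_combination (P.q ^ 2 + P.q + 1) * this
    have e6 : P.q ^ 3 * P.q = P.q ^ 4 := by ring
    have e7 : 0 < P.q ^ 3 * P.q ^ 2 := by have := q_pos P; positivity
    rw [e3, e4, e5, e6] at h2
    rcases h1 with ((⟨h3, h4⟩ | ⟨h3, h4⟩) | ⟨h3, h4⟩) | ⟨h3, h4⟩ <;>
      rcases h2 with ((⟨h5, h6⟩ | ⟨h5, h6⟩) | ⟨h5, h6⟩) | ⟨h5, h6⟩ <;> linarith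
  · have h5 : P.q ^ 4 ≤ P.q ^ k := pow_le_pow_right₀ (by linarith) h4
    have h6 : P.q ^ 4 * P.x ≤ P.q ^ k * P.x := mul_le_mul_of_nonneg_right h5 k1.le
    have e4 : P.q ^ 4 * P.x = P.q * P.x + P.q + P.q ^ 2 := by
      linear_combination P.q * e3
    linarith

lemma int_two_pieces (F : ℝ → ℂ) (hF : Continuous F) (a b c d : ℝ) (hab : a ≤ b) (hbc : b ≤ c)
    (hcd : c ≤ d) : ∫ η in Ico a b ∪ Ico c d, F η = (∫ η in a..b, F η) + ∫ η in c..d, F η := by
  have hI : ∀ a b : ℝ, a ≤ b → IntegrableOn F (Ico a b) volume := by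
    intro a b hab
    rw [integrableOn_Ico_iff_integrableOn_Ioo, ← integrableOn_Ioc_iff_integrableOn_Ioo]
    exact (intervalIntegrable_iff_integrableOn_Ioc_of_le hab).1 (hF.intervalIntegrable a b)
  have hE : ∀ a b : ℝ, a ≤ b → ∫ η in Ico a b, F η = ∫ η in a..b, F η := by
    intro a b hab
    rw [intervalIntegral.integral_of_le hab, integral_Ico_eq_integral_Ioo,
      integral_Ioc_eq_integral_Ioo]
  have d1 : Disjoint (Ico a b) (Ico c d) := by
    rw [Set.disjoint_left]; rintro x ⟨_, h1⟩ ⟨h2, _⟩; linarith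
  rw [setIntegral_union d1 measurableSet_Ico (hI a b hab) (hI c d hcd), hE a b hab, hE c d hcd]

/-- two pieces, the second the translate of the first by `t` with `β t ∈ ℤ + 1/2` -/
lemma pair_zero (β t u v : ℝ) (huv : u ≤ v) (ht : v ≤ u + t) (j : ℤ) (hj : (j : ℝ) + 1 / 2 = β * t) :
    ∫ η in Ico u v ∪ Ico (u + t) (v + t), E β η = 0 := by
  have hne : β ≠ 0 := by
    rintro rfl
    rw [zero_mul] at hj
    have : (2 * j + 1 : ℤ) = 0 := by
      have : ((2 * j + 1 : ℤ) : ℝ) = 0 := by push_cast; linarith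
      exact_mod_cast this
    omega
  rw [int_two_pieces _ (E_cont β) _ _ _ _ huv ht (by linarith),
    int_E _ _ _ hne, int_E _ _ _ hne, ← add_div]
  have hs : E β t = -1 := by
    unfold E
    have : (2 * Real.pi * β * t) = 2 * Real.pi * (β * t) := by ring
    rw [this]
    exact E_half j _ hj
  rw [E_add, E_add, hs]
  have : E β v - E β u + (E β v * -1 - E β u * -1) = 0 := by ring
  rw [this, zero_div]

/-- the overlap integrals vanish -/
lemma overlap (k : ℕ) (m m' : ℤ) (h : k = 0 → m ≠ m') (β : ℝ)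
    (hβ : β = (m + P.b) / P.q ^ k - (m' + P.b)) :
    ∫ η in {η | η ∈ Om P ∧ η / P.q ^ k ∈ Om P}, E β η = 0 := by
  have k1 := x_pos P
  have k2 := x_lt_y P
  have k3 := y_lt_qx P
  have k4 := qx_lt_s P
  have k5 := q_ge P
  have k6 := q2_ge P
  have k7 := s_le P
  rcases Nat.lt_or_ge k 3 with hk | hk
  swap
  · have : {η | η ∈ Om P ∧ η / P.q ^ k ∈ Om P} = ∅ := by
      ext η
      simp only [mem_ofPred_eq, mem_empty_iff_false, iff_false]
      exact inter_big P η k hk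
    rw [this]
    simp
  have hrew : ∀ (S : Set ℝ), (∀ η : ℝ, (η ∈ Om P ∧ η / P.q ^ k ∈ Om P) ↔ η ∈ S) →
      ∫ η in {η | η ∈ Om P ∧ η / P.q ^ k ∈ Om P}, E β η = ∫ η in S, E β η := by
    intro S hiff
    have : {η | η ∈ Om P ∧ η / P.q ^ k ∈ Om P} = S := by
      ext η
      exact hiff η
    rw [this]
  have hq0 : P.q ≠ 0 := (q_pos P).ne'
  interval_cases k
  · -- k = 0
    have hm := h rfl
    have hb : β = ((m - m' : ℤ) : ℝ) := by rw [hβ]; push_cast; ring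
    have hne : β ≠ 0 := by
      rw [hb]
      exact_mod_cast sub_ne_zero.2 hm
    rw [hrew (Om P) (by intro η; simp), int_Om P _
      (fun a b => (E_cont β).intervalIntegrable a b), int_E _ _ _ hne, int_E _ _ _ hne,
      int_E _ _ _ hne, int_E _ _ _ hne, ← add_div, ← add_div, ← add_div]
    have hone : ∀ j : ℤ, E β j = 1 := by
      intro j
      unfold E
      have : (2 * Real.pi * β * (j:ℝ)) = 2 * Real.pi * (β * j) := by ring
      rw [this]
      exact E_int ((m - m') * j) _ (by rw [hb]; push_cast; ring)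
    have e1 : E β 1 = 1 := by simpa using hone 1
    have e2 : E β P.q = 1 := by
      have := hone ((2 * P.r : ℕ) : ℤ)
      have c1 : (((2 * P.r : ℕ) : ℤ) : ℝ) = P.q := by rw [q_cast]; simp
      rwa [c1] at this
    have e3 : E β (P.q ^ 2) = 1 := by
      have := hone (((2 * P.r) ^ 2 : ℕ) : ℤ)
      have c2 : ((((2 * P.r) ^ 2 : ℕ) : ℤ) : ℝ) = P.q ^ 2 := by rw [qq_cast]; simp
      rwa [c2] at this
    simp only [E_add, e1, e2, e3, mul_one]
    have : E β P.y - E β P.x + (E β P.s - E β P.s) + (E β P.x - E β P.s) +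
        (E β P.s - E β P.y) = 0 := by
      ring
    rw [this, zero_div]
  · -- k = 1
    rw [hrew (Ico P.s (P.x + 1) ∪ Ico (P.s + P.q) (P.x + 1 + P.q))
      (by intro η; rw [pow_one]; exact inter_one P η)]
    refine pair_zero β P.q P.s (P.x + 1) (by linarith) (by linarith) (m - 2 * P.r * m' - P.j - 1) ?_
    rw [hβ]
    have hb := P.hb
    have e : ((m + P.b) / P.q ^ 1 - (m' + P.b)) * P.q = m - P.q * m' - P.b * (P.q - 1) := by
      field_simp
      ring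
    rw [e]
    have e2 : P.b * (P.q - 1) = P.j + 1 / 2 := by unfold Par.q; exact hb
    rw [e2]
    unfold Par.q
    push_cast
    ring
  · -- k = 2
    rw [hrew (Ico (P.y + 1) (P.s + 1) ∪ Ico (P.y + 1 + P.q ^ 2) (P.s + 1 + P.q ^ 2))
      (inter_two P)]
    refine pair_zero β (P.q ^ 2) (P.y + 1) (P.s + 1) (by linarith) (by linarith)
      (m - (2 * P.r) ^ 2 * m' - ((2 * P.r + 1) * P.j + P.r) - 1) ?_
    rw [hβ]
    have hb := P.hb
    have e : ((m + P.b) / P.q ^ 2 - (m' + P.b)) * P.q ^ 2 =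
        m - P.q ^ 2 * m' - P.b * (P.q - 1) * (P.q + 1) := by
      field_simp
      ring
    rw [e]
    have e2 : P.b * (P.q - 1) = P.j + 1 / 2 := by unfold Par.q; exact hb
    rw [e2]
    unfold Par.q
    push_cast
    ring

end KS60.WQ
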